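import Pool.Agent.H58.CT.Targets

/-!
# Cyclic terms: loops of minimal absorbing subuniverses
-/

set_option autoImplicit false

namespace Pool.Agent.H48.CT

open Pool.Agent.H58.CT

theorem pf_LBK (hLBA : T_LBA) (hLBC : T_LBC) : T_LBK := by
  intro 𝒞 E _ _ S V hS hne hV hsm hmix
  induction hn : V.ncard using Nat.strong_induction_on generalizing V with
  | _ n ih =>
    by_cases hAF : AF 𝒞 V
    · refine ⟨V, ⟨abs_self hV hne, hAF⟩, ?_⟩
      obtain ⟨x, hx⟩ := hne
      obtain ⟨y, hy, hxy⟩ := hsm.1 x hx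
      exact ⟨x, hx, y, hy, hxy⟩
    · have hB : ∃ B, Abs 𝒞 B V ∧ B ≠ V := by
        by_contra hcon
        push Not at hcon
        exact hAF ⟨hne, hV, hcon⟩
      obtain ⟨B, hB, hBV⟩ := hB
      obtain ⟨C, hC, hCV, hCs⟩ := hLBC 𝒞 E S V B hS hV hsm hmix hB hBV
      have hm := hLBA 𝒞 E S V C hS hV hsm hmix hC hCs
      have hlt : C.ncard < n := by
        rw [← hn]
        exact Set.ncard_lt_ncard (hC.2.2.1.ssubset_of_ne hCV) (Set.toFinite _)
      obtain ⟨N, hN, hxy⟩ := ih C.ncard hlt C hC.1 hC.2.1 hCs hm rfl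
      exact ⟨N, hN.trans hC, hxy⟩

end Pool.Agent.H48.CT
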